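import Pool.Agent.Helper10.Abund.OpenSub
import Pool.Agent.Helper36.Abund.Area

/-! Finite mass over a set gives the fibrewise bound. -/

open scoped Manifold ContDiff ENNReal Topology ComplexConjugate ComplexOrder
open MeasureTheory Metric

namespace Pool.Agent.Helper10.Abund

open Pool.Agent.Helper16.Abund

theorem norm_mul_pow_rpow {m : ℕ} (hm : 1 ≤ m) (a c : ℂ) :
    ‖a * c ^ m‖ ^ (2 / (m : ℝ)) = ‖a‖ ^ (2 / (m : ℝ)) * ‖c‖ ^ 2 := by
  have hm0 : (m : ℝ) ≠ 0 := by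
    have : m ≠ 0 := by omega
    exact_mod_cast this
  rw [norm_mul, Real.mul_rpow (norm_nonneg _) (norm_nonneg _), norm_pow,
    ← Real.rpow_natCast ‖c‖ m, ← Real.rpow_mul (norm_nonneg _),
    mul_div_cancel₀ _ hm0, Real.rpow_two]

theorem fibreLqOn_of_mass {n : ℕ} {X : Type*} [TopologicalSpace X]
    [ChartedSpace (Fin n → ℂ) X] [IsManifold 𝓘(ℂ, Fin n → ℂ) ω X]
    (V : TopologicalSpace.Opens (Fin n → ℂ)) {p : V → X} (hcov : IsCoveringMap p)
    (hloc : IsLocalDiffeomorph 𝓘(ℂ, Fin n → ℂ) 𝓘(ℂ, Fin n → ℂ) ω p) {m : ℕ} (hm : 1 ≤ m)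
    {f : (Fin n → ℂ) → ℂ} (hf : DifferentiableOn ℂ f V) {F : Set (Fin n → ℂ)}
    (hF : MeasurableSet F) (hFV : F ⊆ V)
    (hmass : ∫⁻ v in F, ENNReal.ofReal (‖f v‖ ^ (2 / (m : ℝ))) < ⊤) :
    FibreLqOn n p m (2 / (m : ℝ)) (fun y : V => f y.1) (Subtype.val ⁻¹' F) := by
  classical
  intro x₀
  obtain ⟨U, σ, S⟩ := exists_sheets hcov hloc x₀
  have hq : (0 : ℝ) ≤ 2 / (m : ℝ) := by positivity
  set q : ℝ := 2 / (m : ℝ) with hqdef
  set χ := chartAt (Fin n → ℂ) x₀ with hχ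
  have hopen : IsOpen (χ.target ∩ χ.symm ⁻¹' U) := χ.isOpen_inter_preimage_symm S.isOpen
  have hx₀ : χ x₀ ∈ χ.target ∩ χ.symm ⁻¹' U := by
    refine ⟨mem_chart_target _ _, ?_⟩
    rw [Set.mem_preimage, χ.left_inv (mem_chart_source _ _)]
    exact S.mem
  obtain ⟨r, hr, hB⟩ := Metric.isOpen_iff.mp hopen _ hx₀
  refine ⟨r, hr, fun z hz => (hB hz).1, ?_⟩
  set B : Set (Fin n → ℂ) := ball (χ x₀) r with hBdef
  have hBo : IsOpen B := isOpen_ball
  have hsymm : MDifferentiableOn 𝓘(ℂ, Fin n → ℂ) 𝓘(ℂ, Fin n → ℂ) χ.symm χ.target :=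
    mdifferentiableOn_atlas_symm (chart_mem_atlas _ x₀)
  have hΨ : ∀ i, ∀ z ∈ B, MDifferentiableAt 𝓘(ℂ, Fin n → ℂ) 𝓘(ℂ, Fin n → ℂ)
      (fun w => σ i (χ.symm w)) z := by
    intro i z hz
    have h1 : MDifferentiableOn 𝓘(ℂ, Fin n → ℂ) 𝓘(ℂ, Fin n → ℂ)
        (fun w => σ i (χ.symm w)) B :=
      (S.mdiff i).comp (hsymm.mono fun z hz => (hB hz).1) (fun z hz => (hB hz).2)
    exact h1.mdifferentiableAt (hBo.mem_nhds hz)
  set ψ : (p ⁻¹' {x₀}) → (Fin n → ℂ) → (Fin n → ℂ) := fun i z => (σ i (χ.symm z)).1 with hψ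
  have hψa : ∀ i, ∀ z ∈ B, MDifferentiableAt 𝓘(ℂ, Fin n → ℂ) 𝓘(ℂ, Fin n → ℂ) (ψ i) z :=
    fun i z hz => (mdifferentiable_val V (σ i (χ.symm z))).comp z (hΨ i z hz)
  have hψd : ∀ i, DifferentiableOn ℂ (ψ i) B := fun i z hz =>
    (mdifferentiableAt_iff_differentiableAt.mp (hψa i z hz)).differentiableWithinAt
  have hjac : ∀ i, ∀ z ∈ B, (fderiv ℂ (ψ i) z).det = jac n χ.symm z / jac n p (σ i (χ.symm z)) := by
    intro i z hz
    have h1 : jac n (fun w => σ i (χ.symm w)) z = jac n χ.symm z / jac n p (σ i (χ.symm z)) :=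
      S.jac_comp_sheet hloc i (hsymm.mdifferentiableAt
        (χ.open_target.mem_nhds (hB hz).1)) (hB hz).2
    have h2 : jac n (ψ i) z = jac n (fun w => σ i (χ.symm w)) z := by
      have h3 : ψ i = Subtype.val ∘ (fun w => σ i (χ.symm w)) := rfl
      rw [h3, jac_comp (mdifferentiable_val V _) (hΨ i z hz), jac_val, one_mul]
    rw [← jac_eq_fderiv, h2, h1]
  -- the function on `ℂⁿ`
  set G : (Fin n → ℂ) → ℝ≥0∞ := F.indicator (fun v => ENNReal.ofReal (‖f v‖ ^ q)) with hG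
  have hGm : Measurable G := by
    have h1 : Measurable ((V : Set (Fin n → ℂ)).indicator
        (fun v => ENNReal.ofReal (‖f v‖ ^ q))) := by
      rw [← Set.piecewise_eq_indicator]
      refine ContinuousOn.measurable_piecewise ?_ continuousOn_const V.2.measurableSet
      refine ENNReal.continuous_ofReal.comp_continuousOn ?_
      exact hf.continuousOn.norm.rpow_const (fun x _ => Or.inr hq)
    have h2 : G = F.indicator ((V : Set (Fin n → ℂ)).indicator
        (fun v => ENNReal.ofReal (‖f v‖ ^ q))) := by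
      rw [Set.indicator_indicator, Set.inter_eq_left.mpr hFV]
    rw [h2]
    exact h1.indicator hF
  have hGint : ∫⁻ w in Set.univ, G w = ∫⁻ v in F, ENNReal.ofReal (‖f v‖ ^ q) := by
    rw [setLIntegral_univ, hG, lintegral_indicator hF]
  set H : (p ⁻¹' {x₀}) → (Fin n → ℂ) → ℝ≥0∞ := fun i z =>
    G (ψ i z) * ENNReal.ofReal (‖(fderiv ℂ (ψ i) z).det‖ ^ 2) with hH
  have hHm : ∀ i, AEMeasurable (H i) (volume.restrict B) := by
    intro i
    refine AEMeasurable.mul ?_ ?_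
    · exact hGm.comp_aemeasurable ((hψd i).continuousOn.aemeasurable hBo.measurableSet)
    · refine ContinuousOn.aemeasurable ?_ hBo.measurableSet
      refine ENNReal.continuous_ofReal.comp_continuousOn ?_
      exact (differentiableOn_det_fderiv hBo (hψd i)).continuousOn.norm.pow 2
  have hpt : ∀ z ∈ B, ∑' y : p ⁻¹' {χ.symm z}, (Subtype.val ⁻¹' F : Set V).indicator (fun y : V =>
      ENNReal.ofReal (‖f y.1 * (jac n χ.symm z / jac n p y) ^ m‖ ^ q)) y.1 = ∑' i, H i z := by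
    intro z hz
    rw [S.tsum_fibre (hB hz).2 ((Subtype.val ⁻¹' F : Set V).indicator (fun y : V =>
      ENNReal.ofReal (‖f y.1 * (jac n χ.symm z / jac n p y) ^ m‖ ^ q)))]
    congr 1
    funext i
    simp only [H, hjac i z hz]
    by_cases hi : ψ i z ∈ F
    · have h1 : σ i (χ.symm z) ∈ (Subtype.val ⁻¹' F : Set V) := hi
      rw [Set.indicator_of_mem h1, hG, Set.indicator_of_mem hi, hqdef,
        norm_mul_pow_rpow hm, ENNReal.ofReal_mul (by positivity)]
    · have h1 : σ i (χ.symm z) ∉ (Subtype.val ⁻¹' F : Set V) := hi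
      rw [Set.indicator_of_notMem h1, hG, Set.indicator_of_notMem hi, zero_mul]
  -- injectivity
  have hdisj : ∀ i j, ∀ z ∈ B, ∀ z' ∈ B, ψ i z = ψ j z' → i = j ∧ z = z' := by
    intro i j z hz z' hz' h
    have h0 : σ i (χ.symm z) = σ j (χ.symm z') := Subtype.ext h
    have hxx : χ.symm z = χ.symm z' := by
      rw [← S.sect i _ (hB hz).2, h0, S.sect j _ (hB hz').2]
    have hzz : z = z' := by
      have h4 := congrArg χ hxx
      rwa [χ.right_inv (hB hz).1, χ.right_inv (hB hz').1] at h4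
    refine ⟨?_, hzz⟩
    subst hzz
    obtain ⟨k, -, hk⟩ := S.uniq (σ i (χ.symm z)) (by rw [S.sect i _ (hB hz).2]; exact (hB hz).2)
    have h1 := hk i (by simp only [S.sect i _ (hB hz).2])
    have h2 := hk j (by simp only [S.sect i _ (hB hz).2]; exact h0.symm)
    rw [h1, h2]
  have hsum : ∀ s : Finset (p ⁻¹' {x₀}), ∑ i ∈ s, ∫⁻ z in B, H i z ≤
      ∫⁻ v in F, ENNReal.ofReal (‖f v‖ ^ q) := by
    intro s
    have h1 := Helper36.Abund.lintegral_comp_le (ι := s) (N := 1) (A := fun _ => B)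
      (fun _ => hBo.measurableSet) (U := fun _ => B) (fun _ => hBo) (fun _ => subset_rfl)
      (h := fun i => ψ i.1) (fun i => hψd i.1) (by
        intro w
        rw [Nat.cast_one, Set.encard_le_one_iff]
        rintro ⟨i, z⟩ ⟨j, z'⟩ ⟨hz, hzw⟩ ⟨hz', hzw'⟩
        obtain ⟨h2, h3⟩ := hdisj i.1 j.1 z hz z' hz' (hzw.trans hzw'.symm)
        rw [Subtype.ext h2, h3]) MeasurableSet.univ (fun _ _ _ => Set.mem_univ _) hGm
    rw [Nat.cast_one, one_mul, hGint] at h1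
    rw [← Finset.sum_coe_sort s (fun i => ∫⁻ z in B, H i z)]
    exact h1
  have hcount : Countable (p ⁻¹' {x₀}) := by
    have h1 : DiscreteTopology (p ⁻¹' {x₀}) := (hcov x₀).1
    exact TopologicalSpace.separableSpace_iff_countable.mp inferInstance
  calc ∫⁻ z in B, ∑' y : p ⁻¹' {χ.symm z}, (Subtype.val ⁻¹' F : Set V).indicator (fun y : V =>
      ENNReal.ofReal (‖f y.1 * (jac n χ.symm z / jac n p y) ^ m‖ ^ q)) y.1
      = ∫⁻ z in B, ∑' i, H i z :=
        setLIntegral_congr_fun hBo.measurableSet fun z hz => hpt z hz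
    _ = ∑' i, ∫⁻ z in B, H i z := lintegral_tsum hHm
    _ ≤ ∫⁻ v in F, ENNReal.ofReal (‖f v‖ ^ q) := by
        rw [ENNReal.tsum_eq_iSup_sum]
        exact iSup_le hsum
    _ < ⊤ := hmass

end Pool.Agent.Helper10.Abund
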