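import Pool.Agent.Helper16.Abund.Trace3
import Pool.Agent.Helper16.Abund.Defs2

/-! Open subsets of `ℂⁿ` as complex manifolds. -/

open scoped Manifold ContDiff ENNReal Topology ComplexConjugate ComplexOrder
open MeasureTheory Metric

namespace Pool.Agent.Helper10.Abund

open Pool.Agent.Helper16.Abund

/-- The inclusion of an open subset has derivative the identity. -/
theorem hasMFDerivAt_val {n : ℕ} (V : TopologicalSpace.Opens (Fin n → ℂ)) (y : V) :
    HasMFDerivAt 𝓘(ℂ, Fin n → ℂ) 𝓘(ℂ, Fin n → ℂ) (Subtype.val : V → (Fin n → ℂ)) y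
      (ContinuousLinearMap.id ℂ (Fin n → ℂ)) := by
  refine ⟨continuous_subtype_val.continuousAt, ?_⟩
  have h1 : HasFDerivAt (writtenInExtChartAt 𝓘(ℂ, Fin n → ℂ) 𝓘(ℂ, Fin n → ℂ) y
      (Subtype.val : V → (Fin n → ℂ))) (ContinuousLinearMap.id ℂ (Fin n → ℂ))
      (extChartAt 𝓘(ℂ, Fin n → ℂ) y y) := by
    refine (hasFDerivAt_id _).congr_of_eventuallyEq ?_
    have hmem : (chartAt (Fin n → ℂ) y).target ∈ 𝓝 (extChartAt 𝓘(ℂ, Fin n → ℂ) y y) := by
      refine (chartAt (Fin n → ℂ) y).open_target.mem_nhds ?_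
      exact (chartAt (Fin n → ℂ) y).map_source (mem_chart_source _ y)
    filter_upwards [hmem] with w hw
    have h2 := OpenPartialHomeomorph.subtypeRestr_symm_apply (OpenPartialHomeomorph.refl (Fin n → ℂ))
      (U := V) ⟨y⟩ (y := w) hw
    exact h2
  exact h1.hasFDerivWithinAt

theorem mdifferentiable_val {n : ℕ} (V : TopologicalSpace.Opens (Fin n → ℂ)) :
    MDifferentiable 𝓘(ℂ, Fin n → ℂ) 𝓘(ℂ, Fin n → ℂ) (Subtype.val : V → (Fin n → ℂ)) :=
  fun y => (hasMFDerivAt_val V y).mdifferentiableAt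

theorem jac_val {n : ℕ} (V : TopologicalSpace.Opens (Fin n → ℂ)) (y : V) :
    jac n (Subtype.val : V → (Fin n → ℂ)) y = 1 := by
  unfold jac
  rw [(hasMFDerivAt_val V y).mfderiv]
  exact LinearMap.det_id

/-- The determinant of a continuous linear map of `ℂⁿ` by its matrix. -/
theorem det_eq_matrix {n : ℕ} (A : (Fin n → ℂ) →L[ℂ] (Fin n → ℂ)) :
    A.det = Matrix.det (fun i j => A (Pi.single j 1) i) := by
  unfold ContinuousLinearMap.det
  rw [← LinearMap.det_toMatrix']
  congr 1

theorem differentiableOn_prod {E ι : Type*} [NormedAddCommGroup E] [NormedSpace ℂ E] {W : Set E}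
    (u : Finset ι) (f : ι → E → ℂ) (h : ∀ i ∈ u, DifferentiableOn ℂ (f i) W) :
    DifferentiableOn ℂ (fun z => ∏ i ∈ u, f i z) W := by
  classical
  induction u using Finset.induction_on with
  | empty => simp
  | insert a s ha ih =>
    simp only [Finset.prod_insert ha]
    exact (h a (Finset.mem_insert_self a s)).mul
      (ih fun i hi => h i (Finset.mem_insert_of_mem hi))

/-- The jacobian determinant of a holomorphic map of open sets of `ℂⁿ` is holomorphic. -/
theorem differentiableOn_det_fderiv {n : ℕ} {W : Set (Fin n → ℂ)} (hW : IsOpen W)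
    {φ : (Fin n → ℂ) → (Fin n → ℂ)} (hφ : DifferentiableOn ℂ φ W) :
    DifferentiableOn ℂ (fun z => (fderiv ℂ φ z).det) W := by
  have h1 := Helper8.Abund.differentiableOn_fderiv hW hφ
  simp only [det_eq_matrix, Matrix.det_apply']
  refine DifferentiableOn.fun_sum fun σ _ => ?_
  refine DifferentiableOn.const_mul (𝔸 := ℂ) ?_ _
  have h3 : ∀ i : Fin n, DifferentiableOn ℂ (fun z => fderiv ℂ φ z (Pi.single i 1) (σ i)) W := by
    intro i
    have h2 : DifferentiableOn ℂ (fun z => fderiv ℂ φ z (Pi.single i 1)) W :=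
      h1.clm_apply (differentiableOn_const _)
    exact (differentiableOn_pi.mp h2) (σ i)
  exact differentiableOn_prod Finset.univ _ fun i _ => h3 i

/-- The restriction of a holomorphic function to an open subset of `ℂⁿ` is (the coefficient of) a
pluricanonical form on the open subset. -/
theorem isPluriForm_restrict {n m : ℕ} (V : TopologicalSpace.Opens (Fin n → ℂ))
    {f : (Fin n → ℂ) → ℂ} (hf : DifferentiableOn ℂ f V) :
    IsPluriForm n V m (fun y : V => f y.1) := by
  intro W ψ hW hψ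
  set φ : (Fin n → ℂ) → (Fin n → ℂ) := Subtype.val ∘ ψ with hφ
  have hψa : ∀ z ∈ W, MDifferentiableAt 𝓘(ℂ, Fin n → ℂ) 𝓘(ℂ, Fin n → ℂ) ψ z := fun z hz =>
    (hψ z hz).mdifferentiableAt (hW.mem_nhds hz)
  have hφa : ∀ z ∈ W, MDifferentiableAt 𝓘(ℂ, Fin n → ℂ) 𝓘(ℂ, Fin n → ℂ) φ z := fun z hz =>
    (mdifferentiable_val V (ψ z)).comp z (hψa z hz)
  have hφd : DifferentiableOn ℂ φ W := fun z hz =>
    (mdifferentiableAt_iff_differentiableAt.mp (hφa z hz)).differentiableWithinAt
  have hjac : ∀ z ∈ W, jac n ψ z = (fderiv ℂ φ z).det := by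
    intro z hz
    rw [← jac_eq_fderiv, hφ, jac_comp (mdifferentiable_val V (ψ z)) (hψa z hz), jac_val, one_mul]
  have h1 : DifferentiableOn ℂ (fun z => f (φ z) * (fderiv ℂ φ z).det ^ m) W :=
    (hf.comp hφd fun z _ => (ψ z).2).mul ((differentiableOn_det_fderiv hW hφd).pow m)
  refine h1.congr fun z hz => ?_
  rw [hjac z hz]
  rfl

/-- A map on an open subset of `ℂⁿ` and its extension have the same differentiability and
jacobian. -/
theorem jac_open_comp {n : ℕ} {X : Type*} [TopologicalSpace X]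
    [ChartedSpace (Fin n → ℂ) X] [IsManifold 𝓘(ℂ, Fin n → ℂ) ω X]
    (V : TopologicalSpace.Opens (Fin n → ℂ)) {p : V → X}
    (hp : MDifferentiable 𝓘(ℂ, Fin n → ℂ) 𝓘(ℂ, Fin n → ℂ) p) {ψ : (Fin n → ℂ) → X}
    (hψ : ∀ y : V, ψ y.1 = p y) :
    MDifferentiableOn 𝓘(ℂ, Fin n → ℂ) 𝓘(ℂ, Fin n → ℂ) ψ V ∧ ∀ y : V, jac n ψ y.1 = jac n p y := by
  classical
  -- the local inverse of the inclusion
  let τ : V → (Fin n → ℂ) → V := fun y w => if h : w ∈ V then ⟨w, h⟩ else y
  have hτ : ∀ (y : V) (w : Fin n → ℂ) (h : w ∈ V), τ y w = ⟨w, h⟩ := fun y w h => dif_pos h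
  have hτy : ∀ y : V, τ y y.1 = y := fun y => hτ y y.1 y.2
  have hev : ∀ y : V, (Subtype.val ∘ τ y) =ᶠ[𝓝 y.1] id := by
    intro y
    filter_upwards [V.2.mem_nhds y.2] with w hw
    rw [Function.comp_apply, hτ y w hw]
    rfl
  have hτd : ∀ y : V, MDifferentiableAt 𝓘(ℂ, Fin n → ℂ) 𝓘(ℂ, Fin n → ℂ) (τ y) y.1 := by
    intro y
    have h1 : ContMDiffAt 𝓘(ℂ, Fin n → ℂ) 𝓘(ℂ, Fin n → ℂ) ∞ (Subtype.val ∘ τ y) y.1 :=
      contMDiffAt_id.congr_of_eventuallyEq (hev y)
    exact ((ContMDiffAt.subtypeVal_comp_iff V (τ y) y.1).mp h1).mdifferentiableAt (by simp)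
  have hτj : ∀ y : V, jac n (τ y) y.1 = 1 := by
    intro y
    have h1 : jac n (Subtype.val ∘ τ y) y.1 = 1 := by rw [jac_congr (hev y), jac_id]
    rw [jac_comp (mdifferentiable_val V _) (hτd y), jac_val, one_mul] at h1
    exact h1
  have hψτ : ∀ y : V, ψ =ᶠ[𝓝 y.1] p ∘ τ y := by
    intro y
    filter_upwards [V.2.mem_nhds y.2] with w hw
    rw [Function.comp_apply, hτ y w hw]
    exact hψ ⟨w, hw⟩
  constructor
  · intro w hw
    have h1 : MDifferentiableAt 𝓘(ℂ, Fin n → ℂ) 𝓘(ℂ, Fin n → ℂ) (p ∘ τ ⟨w, hw⟩) w :=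
      (hp _).comp w (hτd ⟨w, hw⟩)
    exact (h1.congr_of_eventuallyEq (hψτ ⟨w, hw⟩)).mdifferentiableWithinAt
  · intro y
    rw [jac_congr (hψτ y), jac_comp (hp _) (hτd y), hτj, mul_one, hτy]

theorem base_append {b k : ℕ} (u : Fin b → ℂ) (w : Fin k → ℂ) : base (Fin.append u w) = u := by
  funext i
  simp [base]

theorem fib_append {b k : ℕ} (u : Fin b → ℂ) (w : Fin k → ℂ) : fib (Fin.append u w) = w := by
  funext i
  simp [fib]

/-- The translation by a combination of the lattice vectors is holomorphic with jacobian one. -/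
theorem jac_shift {b k : ℕ} {D : Set (Fin b → ℂ)} (hD : IsOpen D)
    {Λ : (Fin b → ℂ) → Fin (2 * k) → Fin k → ℂ} (hΛ : DifferentiableOn ℂ Λ D)
    (θ : Fin (2 * k) → ℝ) {v : Fin (b + k) → ℂ} (hv : v ∈ tube D hD k) :
    DifferentiableAt ℂ (shift Λ θ) v ∧ shift Λ θ v ∈ tube D hD k ∧
      jac (b + k) (shift Λ θ) v = 1 := by
  have hvD : base v ∈ D := hv
  have hbase : ∀ w : Fin (b + k) → ℂ, DifferentiableAt ℂ (base (b := b) (k := k)) w := fun w =>
    differentiableAt_pi.mpr fun i => differentiableAt_apply (Fin.castAdd k i) w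
  have hcomb : DifferentiableAt ℂ (fun w : Fin (b + k) → ℂ => comb Λ (base w) θ) v := by
    unfold comb
    refine DifferentiableAt.fun_sum fun l _ => ?_
    refine DifferentiableAt.fun_const_smul ?_ (θ l : ℂ)
    have h1 : DifferentiableAt ℂ Λ (base v) := hΛ.differentiableAt (hD.mem_nhds hvD)
    have h2 : DifferentiableAt ℂ (fun w : Fin (b + k) → ℂ => Λ (base w)) v :=
      h1.comp v (hbase v)
    exact differentiableAt_pi.mp h2 l
  have hcast : ∀ i : Fin b, HasFDerivAt (fun w : Fin (b + k) → ℂ => shift Λ θ w (Fin.castAdd k i))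
      (ContinuousLinearMap.proj (R := ℂ) (φ := fun _ : Fin (b + k) => ℂ) (Fin.castAdd k i)) v := by
    intro i
    have h1 : (fun w : Fin (b + k) → ℂ => shift Λ θ w (Fin.castAdd k i)) =
        fun w => w (Fin.castAdd k i) := by
      funext w
      simp [shift, base]
    rw [h1]
    exact hasFDerivAt_apply (Fin.castAdd k i) v
  have hnat : ∀ j : Fin k, HasFDerivAt (fun w : Fin (b + k) → ℂ => shift Λ θ w (Fin.natAdd b j))
      (ContinuousLinearMap.proj (R := ℂ) (φ := fun _ : Fin (b + k) => ℂ) (Fin.natAdd b j) +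
        (ContinuousLinearMap.proj (R := ℂ) (φ := fun _ : Fin k => ℂ) j).comp
          (fderiv ℂ (fun w : Fin (b + k) → ℂ => comb Λ (base w) θ) v)) v := by
    intro j
    have h1 : (fun w : Fin (b + k) → ℂ => shift Λ θ w (Fin.natAdd b j)) =
        fun w => w (Fin.natAdd b j) + comb Λ (base w) θ j := by
      funext w
      simp [shift, fib]
    rw [h1]
    refine (hasFDerivAt_apply (Fin.natAdd b j) v).add ?_
    exact (hasFDerivAt_apply j _).comp v hcomb.hasFDerivAt
  have hdiff : DifferentiableAt ℂ (shift Λ θ) v := by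
    refine differentiableAt_pi.mpr fun i => ?_
    refine Fin.addCases (fun i => (hcast i).differentiableAt)
      (fun j => (hnat j).differentiableAt) i
  refine ⟨hdiff, ?_, ?_⟩
  · show base (shift Λ θ v) ∈ D
    rw [shift, base_append]
    exact hvD
  · rw [jac_eq_fderiv, det_eq_matrix]
    have hcomp : ∀ (i : Fin (b + k)) (u : Fin (b + k) → ℂ), fderiv ℂ (shift Λ θ) v u i =
        fderiv ℂ (fun w => shift Λ θ w i) v u := by
      intro i u
      rw [fderiv_apply hdiff]
      rfl
    have hcast' : ∀ (i : Fin b) (u : Fin (b + k) → ℂ),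
        fderiv ℂ (shift Λ θ) v u (Fin.castAdd k i) = u (Fin.castAdd k i) := by
      intro i u
      rw [hcomp, (hcast i).fderiv]
      rfl
    -- the derivative of the second term kills the vectors along the fibre
    have hzero : ∀ j : Fin k, fderiv ℂ (fun w : Fin (b + k) → ℂ => comb Λ (base w) θ) v
        (Pi.single (Fin.natAdd b j) 1) = 0 := by
      intro j
      have h1 : DifferentiableAt ℂ (fun z => comb Λ z θ) (base v) := by
        unfold comb
        refine DifferentiableAt.fun_sum fun l _ => ?_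
        refine DifferentiableAt.fun_const_smul ?_ (θ l : ℂ)
        exact differentiableAt_pi.mp (hΛ.differentiableAt (hD.mem_nhds hvD)) l
      have h2 : (fun w : Fin (b + k) → ℂ => comb Λ (base w) θ) = (fun z => comb Λ z θ) ∘ base := rfl
      rw [h2, fderiv_comp v h1 (hbase v)]
      have h3 : fderiv ℂ (base (b := b) (k := k)) v (Pi.single (Fin.natAdd b j) 1) = 0 := by
        funext i
        have h4 : fderiv ℂ (base (b := b) (k := k)) v (Pi.single (Fin.natAdd b j) 1) i =
            fderiv ℂ (fun w : Fin (b + k) → ℂ => base w i) v (Pi.single (Fin.natAdd b j) 1) := by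
          rw [fderiv_apply (hbase v)]
          rfl
        rw [h4]
        have h5 : HasFDerivAt (fun w : Fin (b + k) → ℂ => base w i)
            (ContinuousLinearMap.proj (R := ℂ) (φ := fun _ : Fin (b + k) => ℂ)
              (Fin.castAdd k i)) v := hasFDerivAt_apply (Fin.castAdd k i) v
        rw [h5.fderiv]
        show (Pi.single (Fin.natAdd b j) (1 : ℂ) : Fin (b + k) → ℂ) (Fin.castAdd k i) = 0
        refine Pi.single_eq_of_ne ?_ _
        intro h
        have := congrArg Fin.val h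
        simp at this
        omega
      rw [ContinuousLinearMap.comp_apply, h3, map_zero]
    rw [Matrix.det_of_isLowerTriangular]
    · refine Finset.prod_eq_one fun i _ => ?_
      refine Fin.addCases (fun i => ?_) (fun j => ?_) i
      · rw [hcast', Pi.single_eq_same]
      · rw [hcomp, (hnat j).fderiv]
        show (Pi.single (Fin.natAdd b j) (1 : ℂ) : Fin (b + k) → ℂ) (Fin.natAdd b j) +
          (fderiv ℂ (fun w : Fin (b + k) → ℂ => comb Λ (base w) θ) v
            (Pi.single (Fin.natAdd b j) 1)) j = 1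
        rw [hzero, Pi.single_eq_same]
        simp
    · intro i j hij
      have hij' : i < j := hij
      show fderiv ℂ (shift Λ θ) v (Pi.single j 1) i = 0
      revert hij'
      refine Fin.addCases (fun i hij' => ?_) (fun i' => ?_) i
      · rw [hcast', Pi.single_eq_of_ne hij'.ne]
      · refine Fin.addCases (fun j hij' => ?_) (fun j hij' => ?_) j
        · exfalso
          have := Fin.lt_def.mp hij'
          simp at this
          omega
        · rw [hcomp, (hnat i').fderiv]
          show (Pi.single (Fin.natAdd b j) (1 : ℂ) : Fin (b + k) → ℂ) (Fin.natAdd b i') +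
            (fderiv ℂ (fun w : Fin (b + k) → ℂ => comb Λ (base w) θ) v
              (Pi.single (Fin.natAdd b j) 1)) i' = 0
          rw [hzero, Pi.single_eq_of_ne hij'.ne]
          simp

end Pool.Agent.Helper10.Abund
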