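import Pool.Agent.Helper16.Abund.Basic
import Pool.Agent.Helper36.Abund.Area

/-! The pull back of a pluricanonical form of a compact manifold under a finite-to-one holomorphic
map has finite mass. -/

open scoped Manifold ContDiff ENNReal
open MeasureTheory

namespace Pool.Agent.Helper10.Abund

open Pool.Agent.Helper16.Abund

/-- One coordinate neighbourhood in the target. -/
theorem pullback_chart_bound {n m N : ℕ} (hm : 1 ≤ m) {Y Z : Type*}
    [TopologicalSpace Y] [ChartedSpace (Fin n → ℂ) Y] [IsManifold 𝓘(ℂ, Fin n → ℂ) ω Y]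
    [TopologicalSpace Z]
    [ChartedSpace (Fin n → ℂ) Z] [IsManifold 𝓘(ℂ, Fin n → ℂ) ω Z]
    {g : Y → Z} (hg : MDifferentiable 𝓘(ℂ, Fin n → ℂ) 𝓘(ℂ, Fin n → ℂ) g)
    (hN : ∀ z : Z, (g ⁻¹' {z}).encard ≤ N) {s : Z → ℂ} (hs : IsPluriForm n Z m s) (z₀ : Z) :
    ∃ O : Set Z, IsOpen O ∧ z₀ ∈ O ∧ ∃ C : ℝ≥0∞, C < ⊤ ∧
      ∀ (N' : ℕ) (V : Fin N' → Set (Fin n → ℂ)) (ψ : Fin N' → (Fin n → ℂ) → Y),
        (∀ i, IsOpen (V i)) →
        (∀ i, MDifferentiableOn 𝓘(ℂ, Fin n → ℂ) 𝓘(ℂ, Fin n → ℂ) (ψ i) (V i)) →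
        (∀ i, Set.InjOn (ψ i) (V i)) →
        (Pairwise fun i j => Disjoint (ψ i '' V i) (ψ j '' V j)) →
        ∑ i, ∫⁻ z in (V i ∩ (g ∘ ψ i) ⁻¹' O), ENNReal.ofReal
            (‖(s (g (ψ i z)) * jac n g (ψ i z) ^ m) * jac n (ψ i) z ^ m‖ ^ (2 / (m : ℝ)))
          ≤ C := by
  classical
  have : IsManifold 𝓘(ℂ, Fin n → ℂ) 1 Y := IsManifold.of_le (n := ω) le_top
  have : IsManifold 𝓘(ℂ, Fin n → ℂ) 1 Z := IsManifold.of_le (n := ω) le_top
  set χ := chartAt (Fin n → ℂ) z₀ with hχ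
  have hz₀ : z₀ ∈ χ.source := mem_chart_source _ z₀
  have hm0 : (m : ℝ) ≠ 0 := by
    have : m ≠ 0 := by omega
    exact_mod_cast this
  -- a closed ball in the target
  obtain ⟨r, hr, hball⟩ : ∃ r > 0, Metric.closedBall (χ z₀) r ⊆ χ.target :=
    Metric.nhds_basis_closedBall.mem_iff.mp (χ.open_target.mem_nhds (χ.map_source hz₀))
  -- the local expression of the form
  set S : (Fin n → ℂ) → ℂ := fun w => s (χ.symm w) * jac n χ.symm w ^ m with hS
  have hSd : DifferentiableOn ℂ S χ.target :=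
    hs χ.target χ.symm χ.open_target (mdifferentiableOn_atlas_symm (chart_mem_atlas _ z₀))
  have hSc : ContinuousOn S (Metric.closedBall (χ z₀) r) := hSd.continuousOn.mono hball
  obtain ⟨M, hM⟩ := (isCompact_closedBall (χ z₀) r).exists_bound_of_continuousOn hSc
  have hq : (0 : ℝ) ≤ 2 / (m : ℝ) := by positivity
  set B : Set (Fin n → ℂ) := Metric.ball (χ z₀) r with hB
  have hBm : MeasurableSet B := measurableSet_ball
  set G : (Fin n → ℂ) → ℝ≥0∞ := B.indicator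
    (fun w => ENNReal.ofReal (‖S w‖ ^ (2 / (m : ℝ)))) with hG
  have hGm : Measurable G := by
    rw [hG, ← Set.piecewise_eq_indicator]
    refine ContinuousOn.measurable_piecewise ?_ continuousOn_const hBm
    refine ENNReal.continuous_ofReal.comp_continuousOn ?_
    refine ContinuousOn.rpow_const ?_ (fun x _ => Or.inr hq)
    exact (hSc.mono Metric.ball_subset_closedBall).norm
  have hGint : ∫⁻ w in B, G w < ⊤ := by
    calc ∫⁻ w in B, G w ≤ ∫⁻ w in B, ENNReal.ofReal (|M| ^ (2 / (m : ℝ))) := by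
          refine lintegral_mono_ae ?_
          refine (ae_restrict_iff' hBm).mpr (Filter.Eventually.of_forall fun w hw => ?_)
          rw [hG, Set.indicator_of_mem hw]
          refine ENNReal.ofReal_le_ofReal (Real.rpow_le_rpow (norm_nonneg _) ?_ hq)
          exact (hM w (Metric.ball_subset_closedBall hw)).trans (le_abs_self M)
      _ = ENNReal.ofReal (|M| ^ (2 / (m : ℝ))) * volume B := by
          rw [setLIntegral_const]
      _ < ⊤ := ENNReal.mul_lt_top ENNReal.ofReal_lt_top measure_ball_lt_top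
  refine ⟨χ.source ∩ χ ⁻¹' B, χ.isOpen_inter_preimage Metric.isOpen_ball,
    ⟨hz₀, Metric.mem_ball_self hr⟩, N * ∫⁻ w in B, G w,
    ENNReal.mul_lt_top (ENNReal.natCast_lt_top N) hGint, ?_⟩
  intro N' V ψ hV hψ hinj hdisj
  set O : Set Z := χ.source ∩ χ ⁻¹' B with hO
  have hOo : IsOpen O := χ.isOpen_inter_preimage Metric.isOpen_ball
  set A : Fin N' → Set (Fin n → ℂ) := fun i => V i ∩ (g ∘ ψ i) ⁻¹' O with hA
  -- differentiability facts
  have hψa : ∀ i, ∀ z ∈ V i, MDifferentiableAt 𝓘(ℂ, Fin n → ℂ) 𝓘(ℂ, Fin n → ℂ) (ψ i) z :=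
    fun i z hz => (hψ i z hz).mdifferentiableAt ((hV i).mem_nhds hz)
  have hfa : ∀ i, ∀ z ∈ V i,
      MDifferentiableAt 𝓘(ℂ, Fin n → ℂ) 𝓘(ℂ, Fin n → ℂ) (g ∘ ψ i) z :=
    fun i z hz => (hg (ψ i z)).comp z (hψa i z hz)
  have hAo : ∀ i, IsOpen (A i) := by
    intro i
    have hc : ContinuousOn (g ∘ ψ i) (V i) := fun z hz =>
      (hfa i z hz).continuousAt.continuousWithinAt
    exact hc.isOpen_inter_preimage (hV i) hOo
  set h : Fin N' → (Fin n → ℂ) → (Fin n → ℂ) := fun i => χ ∘ (g ∘ ψ i) with hh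
  have hha : ∀ i, ∀ z ∈ A i,
      MDifferentiableAt 𝓘(ℂ, Fin n → ℂ) 𝓘(ℂ, Fin n → ℂ) (h i) z := by
    intro i z hz
    exact (mdifferentiableAt_atlas (chart_mem_atlas _ z₀) hz.2.1).comp z (hfa i z hz.1)
  have hhd : ∀ i, DifferentiableOn ℂ (h i) (A i) := by
    intro i z hz
    exact (mdifferentiableAt_iff_differentiableAt.mp (hha i z hz)).differentiableWithinAt
  have key := Helper36.Abund.lintegral_comp_le (N := N) (A := A)
    (fun i => (hAo i).measurableSet) hAo (fun i => subset_rfl) hhd ?_ hBm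
    (fun i z hz => hz.2.2) hGm
  · refine le_trans (le_of_eq ?_) key
    refine Finset.sum_congr rfl fun i _ => ?_
    refine setLIntegral_congr_fun (hAo i).measurableSet fun z hz => ?_
    have hz2 : g (ψ i z) ∈ χ.source := hz.2.1
    have hzB : h i z ∈ B := hz.2.2
    have hsymm : χ.symm (h i z) = g (ψ i z) := χ.left_inv hz2
    -- chain rules
    have e1 : jac n (g ∘ ψ i) z = jac n g (ψ i z) * jac n (ψ i) z :=
      jac_comp (hg (ψ i z)) (hψa i z hz.1)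
    have e2 : jac n (g ∘ ψ i) z = jac n χ.symm (h i z) * (fderiv ℂ (h i) z).det := by
      have hev : (g ∘ ψ i) =ᶠ[nhds z] (χ.symm ∘ h i) := by
        filter_upwards [(hAo i).mem_nhds hz] with z' hz'
        exact (χ.left_inv hz'.2.1).symm
      rw [jac_congr hev, jac_comp ?_ (hha i z hz), jac_eq_fderiv]
      exact mdifferentiableAt_atlas_symm (chart_mem_atlas _ z₀) (χ.map_source hz2)
    have e3 : (s (g (ψ i z)) * jac n g (ψ i z) ^ m) * jac n (ψ i) z ^ m =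
        S (h i z) * (fderiv ℂ (h i) z).det ^ m := by
      rw [mul_assoc, ← mul_pow, ← e1, e2, hS]
      simp only [hsymm]
      ring
    have e4 : ‖(s (g (ψ i z)) * jac n g (ψ i z) ^ m) * jac n (ψ i) z ^ m‖ ^ (2 / (m : ℝ)) =
        ‖S (h i z)‖ ^ (2 / (m : ℝ)) * ‖(fderiv ℂ (h i) z).det‖ ^ 2 := by
      rw [e3, norm_mul, Real.mul_rpow (norm_nonneg _) (norm_nonneg _), norm_pow,
        ← Real.rpow_natCast (‖(fderiv ℂ (h i) z).det‖) m, ← Real.rpow_mul (norm_nonneg _),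
        mul_div_cancel₀ _ hm0, Real.rpow_two]
    rw [e4, ENNReal.ofReal_mul (by positivity), hG, Set.indicator_of_mem hzB]
  · intro w
    refine le_trans ?_ (hN (χ.symm w))
    refine Set.encard_le_encard_of_injOn (f := fun x : Fin N' × (Fin n → ℂ) => ψ x.1 x.2) ?_ ?_
    · rintro ⟨i, z⟩ ⟨hz, hw⟩
      simp only [Set.mem_preimage, Set.mem_singleton_iff]
      rw [← hw]
      exact (χ.left_inv hz.2.1).symm
    · rintro ⟨i, z⟩ ⟨hz, -⟩ ⟨j, z'⟩ ⟨hz', -⟩ hzz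
      simp only at hz hz' hzz
      have hij : i = j := by
        by_contra hne
        exact Set.disjoint_left.mp (hdisj hne) ⟨z, hz.1, rfl⟩ ⟨z', hz'.1, hzz.symm⟩
      subst hij
      rw [hinj i hz.1 hz'.1 hzz]

/-- The pull back of a pluricanonical form of a compact manifold under a finite-to-one holomorphic
map has finite mass. -/
theorem finiteMass_pullback {n m N : ℕ} (hm : 1 ≤ m) {Y Z : Type*}
    [TopologicalSpace Y] [ChartedSpace (Fin n → ℂ) Y] [IsManifold 𝓘(ℂ, Fin n → ℂ) ω Y]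
    [TopologicalSpace Z] [T2Space Z] [CompactSpace Z]
    [ChartedSpace (Fin n → ℂ) Z] [IsManifold 𝓘(ℂ, Fin n → ℂ) ω Z]
    {g : Y → Z} (hg : MDifferentiable 𝓘(ℂ, Fin n → ℂ) 𝓘(ℂ, Fin n → ℂ) g)
    (hN : ∀ z : Z, (g ⁻¹' {z}).encard ≤ N) {s : Z → ℂ} (hs : IsPluriForm n Z m s) :
    FiniteMass n m (fun y => s (g y) * jac n g y ^ m) := by
  classical
  choose O hOo hzO C hC hbound using fun z₀ => pullback_chart_bound hm hg hN hs z₀
  obtain ⟨t, ht⟩ := isCompact_univ.elim_nhds_subcover O (fun z _ => (hOo z).mem_nhds (hzO z))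
  have hcov : ∀ z : Z, ∃ k : t, z ∈ O k.1 := by
    intro z
    obtain ⟨k, hk⟩ := Set.mem_iUnion.mp (ht.2 (Set.mem_univ z))
    obtain ⟨hk1, hk2⟩ := Set.mem_iUnion.mp hk
    exact ⟨⟨k, hk1⟩, hk2⟩
  have hCt : ∑ k : t, C k.1 < ⊤ := ENNReal.sum_lt_top.mpr fun k _ => hC k.1
  refine ⟨(∑ k : t, C k.1).toReal, ?_⟩
  intro N' V ψ hV hψ hinj hdisj
  rw [ENNReal.ofReal_toReal hCt.ne]
  calc ∑ i, ∫⁻ z in V i, ENNReal.ofReal
        (‖(s (g (ψ i z)) * jac n g (ψ i z) ^ m) * jac n (ψ i) z ^ m‖ ^ (2 / (m : ℝ)))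
      ≤ ∑ i, ∑ k : t, ∫⁻ z in (V i ∩ (g ∘ ψ i) ⁻¹' O k.1), ENNReal.ofReal
        (‖(s (g (ψ i z)) * jac n g (ψ i z) ^ m) * jac n (ψ i) z ^ m‖ ^ (2 / (m : ℝ))) := by
        refine Finset.sum_le_sum fun i _ => ?_
        have hVi : V i = ⋃ k : t, (V i ∩ (g ∘ ψ i) ⁻¹' O k.1) := by
          ext z
          simp only [Set.mem_iUnion, Set.mem_inter_iff, Set.mem_preimage]
          constructor
          · intro hz
            obtain ⟨k, hk⟩ := hcov (g (ψ i z))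
            exact ⟨k, hz, hk⟩
          · rintro ⟨k, hz, -⟩
            exact hz
        conv_lhs => rw [hVi]
        refine (lintegral_iUnion_le _ _).trans (le_of_eq ?_)
        rw [tsum_fintype]
    _ = ∑ k : t, ∑ i, ∫⁻ z in (V i ∩ (g ∘ ψ i) ⁻¹' O k.1), ENNReal.ofReal
        (‖(s (g (ψ i z)) * jac n g (ψ i z) ^ m) * jac n (ψ i) z ^ m‖ ^ (2 / (m : ℝ))) :=
        Finset.sum_comm
    _ ≤ ∑ k : t, C k.1 := Finset.sum_le_sum fun k _ => hbound k.1 N' V ψ hV hψ hinj hdisj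

end Pool.Agent.Helper10.Abund
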